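import Pool.Agent.P8H70.TU.Stm

/-!
# Project TU (helper70), package J2: Jackson's theorem in two variables from one variable
-/

set_option autoImplicit false

open Complex MeasureTheory Finset

namespace Pool.Agent.P8H52.TUJ

open Pool.Agent.P8H70.TU

lemma norm_cos_le (x : ℝ) : ‖((Real.cos x : ℝ) : ℂ)‖ ≤ 1 := by
  rw [Complex.norm_real, Real.norm_eq_abs]
  exact Real.abs_cos_le_one x

lemma fh_int {f : ℝ → ℂ} (hf : Continuous f) (k : ℤ) :
    IntervalIntegrable (fun u => f u * ((Real.cos (k * u) : ℝ) : ℂ)) volume 0 (2 * Real.pi) := by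
  refine Continuous.intervalIntegrable ?_ _ _
  exact hf.mul (Complex.continuous_ofReal.comp (Real.continuous_cos.comp (continuous_const.mul continuous_id)))

lemma fh_bound {f : ℝ → ℂ} {B : ℝ} (hB : ∀ x, ‖f x‖ ≤ B) (k : ℤ) : ‖fh f k‖ ≤ B := by
  unfold fh
  rw [norm_mul]
  have hp : (0 : ℝ) < 2 * Real.pi := by positivity
  have h1 : ‖∫ u in (0:ℝ)..(2 * Real.pi), f u * ((Real.cos (k * u) : ℝ) : ℂ)‖ ≤ B * |2 * Real.pi - 0| := by
    refine intervalIntegral.norm_integral_le_of_norm_le_const ?_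
    intro x _
    rw [norm_mul]
    calc ‖f x‖ * ‖((Real.cos (k * x) : ℝ) : ℂ)‖ ≤ B * 1 :=
          mul_le_mul (hB x) (norm_cos_le _) (norm_nonneg _) ((norm_nonneg _).trans (hB x))
      _ = B := mul_one B
  rw [sub_zero, abs_of_pos hp] at h1
  rw [Complex.norm_real, Real.norm_eq_abs, abs_of_pos (by positivity : (0 : ℝ) < (2 * Real.pi)⁻¹)]
  calc (2 * Real.pi)⁻¹ * ‖∫ u in (0:ℝ)..(2 * Real.pi), f u * ((Real.cos (k * u) : ℝ) : ℂ)‖
      ≤ (2 * Real.pi)⁻¹ * (B * (2 * Real.pi)) := mul_le_mul_of_nonneg_left h1 (by positivity)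
    _ = B := by field_simp

lemma fh_sub {f g : ℝ → ℂ} (hf : Continuous f) (hg : Continuous g) (k : ℤ) :
    fh (fun x => f x - g x) k = fh f k - fh g k := by
  unfold fh
  rw [← mul_sub, ← intervalIntegral.integral_sub (fh_int hf k) (fh_int hg k)]
  congr 1
  refine intervalIntegral.integral_congr fun x _ => ?_
  show (f x - g x) * _ = _
  ring

lemma fh_sum (s : Finset ℤ) (a c : ℤ → ℂ) (G : ℤ → ℝ → ℂ) (hG : ∀ k, Continuous (G k)) (l : ℤ) :
    fh (fun v => ∑ k ∈ s, a k * G k v * c k) l = ∑ k ∈ s, a k * fh (G k) l * c k := by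
  unfold fh
  have h1 : ∀ v : ℝ, (∑ k ∈ s, a k * G k v * c k) * ((Real.cos (l * v) : ℝ) : ℂ) =
      ∑ k ∈ s, (a k * c k) * (G k v * ((Real.cos (l * v) : ℝ) : ℂ)) := by
    intro v
    rw [Finset.sum_mul]
    exact Finset.sum_congr rfl fun k _ => by ring
  rw [intervalIntegral.integral_congr (g := fun v => ∑ k ∈ s, (a k * c k) *
    (G k v * ((Real.cos (l * v) : ℝ) : ℂ))) (fun v _ => h1 v)]
  rw [intervalIntegral.integral_finsetSum (fun k _ => (fh_int (hG k) l).const_mul _), Finset.mul_sum]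
  refine Finset.sum_congr rfl fun k _ => ?_
  rw [intervalIntegral.integral_const_mul]
  ring

lemma cont_of_lip {f : ℝ → ℂ} {L : ℝ} (h : ∀ x y, ‖f x - f y‖ ≤ L * |x - y|) : Continuous f := by
  have hL : LipschitzWith (Real.toNNReal L) f := by
    refine LipschitzWith.of_dist_le_mul fun x y => ?_
    rw [dist_eq_norm, Real.dist_eq]
    refine (h x y).trans (mul_le_mul_of_nonneg_right (Real.le_coe_toNNReal L) (abs_nonneg _))
  exact hL.continuous

lemma cos_natAbs (k : ℤ) (a : ℕ) (h : k.natAbs = a) (x : ℝ) : Real.cos ((k : ℝ) * x) = Real.cos ((a : ℝ) * x) := by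
  subst h
  rcases Int.natAbs_eq k with h | h
  · conv_lhs => rw [h]
    simp
  · conv_lhs => rw [h]
    simp

lemma card_fib (N : ℕ) (a : ℕ) : ((Finset.Icc (-(N : ℤ)) N).filter (fun k => k.natAbs = a)).card ≤ 2 := by
  have h : (Finset.Icc (-(N : ℤ)) N).filter (fun k => k.natAbs = a) ⊆ {(a : ℤ), -(a : ℤ)} := by
    intro k hk
    rw [Finset.mem_filter] at hk
    rw [Finset.mem_insert, Finset.mem_singleton]
    have := Int.natAbs_eq k
    rw [hk.2] at this
    exact this
  exact (Finset.card_le_card h).trans Finset.card_le_two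

lemma fold_sum (N : ℕ) (g : ℤ → ℂ) : ∑ k ∈ Finset.Icc (-(N : ℤ)) N, g k =
    ∑ a ∈ range (N + 1), ∑ k ∈ (Finset.Icc (-(N : ℤ)) N).filter (fun k => k.natAbs = a), g k := by
  rw [Finset.sum_fiberwise_of_maps_to]
  intro k hk
  rw [Finset.mem_Icc] at hk
  rw [Finset.mem_range]
  omega

theorem j2 : S_J2 := by
  rintro ⟨C, hC, hJ⟩
  refine ⟨2 * C, by positivity, ?_⟩
  intro s F L B h1 h2 p1 p2 e1 e2 hB
  obtain ⟨b, hb, hcon, happ⟩ := hJ s
  set N : ℕ := 2 ^ s with hN
  have hNi : ((2 : ℤ) ^ s) = (N : ℤ) := by rw [hN]; push_cast; rfl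
  rw [hNi] at hcon happ
  have hB0 : 0 ≤ B := (norm_nonneg _).trans (hB 0 0)
  have c1 : ∀ y, Continuous (fun x => F x y) := fun y => cont_of_lip (fun x x' => h1 x x' y)
  have c2 : ∀ k : ℤ, ∀ y y', ‖fh (fun x => F x y) k - fh (fun x => F x y') k‖ ≤ L * |y - y'| := by
    intro k y y'
    rw [← fh_sub (c1 y) (c1 y')]
    exact fh_bound (fun x => h2 x y y') k
  have c3 : ∀ k : ℤ, Continuous (fun y => fh (fun x => F x y) k) := fun k => cont_of_lip (c2 k)
  set D : ℤ → ℤ → ℂ := fun k l => fh (fun v => fh (fun x => F x v) k) l with hD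
  have hDB : ∀ k l, ‖D k l‖ ≤ B := fun k l => fh_bound (fun v => fh_bound (fun x => hB x v) k) l
  -- the approximation in the first variable
  have s1 : ∀ x y, ‖F x y - ∑ k ∈ Finset.Icc (-(N : ℤ)) N, b k * fh (fun x => F x y) k *
      ((Real.cos (k * x) : ℝ) : ℂ)‖ ≤ C * L / 2 ^ s := fun x y =>
    happ (fun x => F x y) L (fun x x' => h1 x x' y) (fun x => p1 x y) (fun x => e1 x y) x
  -- the second variable
  have s2 : ∀ x y, ‖∑ k ∈ Finset.Icc (-(N : ℤ)) N, b k * fh (fun x => F x y) k *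
      ((Real.cos (k * x) : ℝ) : ℂ) - ∑ l ∈ Finset.Icc (-(N : ℤ)) N, b l *
      (∑ k ∈ Finset.Icc (-(N : ℤ)) N, b k * D k l * ((Real.cos (k * x) : ℝ) : ℂ)) *
      ((Real.cos (l * y) : ℝ) : ℂ)‖ ≤ C * L / 2 ^ s := by
    intro x y
    have h := happ (fun y => ∑ k ∈ Finset.Icc (-(N : ℤ)) N, b k * fh (fun x => F x y) k *
      ((Real.cos (k * x) : ℝ) : ℂ)) L ?_ ?_ ?_ y
    · have e : ∀ l : ℤ, fh (fun y => ∑ k ∈ Finset.Icc (-(N : ℤ)) N, b k * fh (fun x => F x y) k *
          ((Real.cos (k * x) : ℝ) : ℂ)) l =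
          ∑ k ∈ Finset.Icc (-(N : ℤ)) N, b k * D k l * ((Real.cos (k * x) : ℝ) : ℂ) := fun l =>
        fh_sum _ b (fun k => ((Real.cos (k * x) : ℝ) : ℂ)) (fun k y => fh (fun x => F x y) k) c3 l
      simp only [e] at h
      exact h
    · intro y y'
      have h3 := hcon (fun x => F x y - F x y') (L * |y - y'|) ((c1 y).sub (c1 y'))
        (fun x => by show F (x + 2 * Real.pi) y - F (x + 2 * Real.pi) y' = _; rw [p1, p1])
        (fun x => by show F (-x) y - F (-x) y' = _; rw [e1, e1]) (fun x => h2 x y y') x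
      refine le_trans (le_of_eq ?_) h3
      congr 1
      show _ - _ = _
      rw [← Finset.sum_sub_distrib]
      refine Finset.sum_congr rfl fun k _ => ?_
      rw [fh_sub (c1 y) (c1 y')]
      ring
    · intro y
      show _ = _
      refine Finset.sum_congr rfl fun k _ => ?_
      simp only [p2]
    · intro y
      show _ = _
      refine Finset.sum_congr rfl fun k _ => ?_
      simp only [e2]
  refine ⟨fun a a' => ∑ k ∈ (Finset.Icc (-(N : ℤ)) N).filter (fun k => k.natAbs = a),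
    ∑ l ∈ (Finset.Icc (-(N : ℤ)) N).filter (fun k => k.natAbs = a'), b k * b l * D k l, ?_, ?_⟩
  · intro a a'
    calc ‖∑ k ∈ (Finset.Icc (-(N : ℤ)) N).filter (fun k => k.natAbs = a),
        ∑ l ∈ (Finset.Icc (-(N : ℤ)) N).filter (fun k => k.natAbs = a'), b k * b l * D k l‖
        ≤ ∑ k ∈ (Finset.Icc (-(N : ℤ)) N).filter (fun k => k.natAbs = a),
        ∑ l ∈ (Finset.Icc (-(N : ℤ)) N).filter (fun k => k.natAbs = a'), B := by
          refine norm_sum_le_of_le _ fun k _ => norm_sum_le_of_le _ fun l _ => ?_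
          rw [norm_mul, norm_mul]
          have h3 : ‖b k‖ * ‖b l‖ ≤ 1 := by
            have := mul_le_mul (hb k) (hb l) (norm_nonneg _) zero_le_one
            linarith
          calc ‖b k‖ * ‖b l‖ * ‖D k l‖ ≤ 1 * B :=
                mul_le_mul h3 (hDB k l) (norm_nonneg _) zero_le_one
            _ = B := one_mul B
      _ = (((Finset.Icc (-(N : ℤ)) N).filter (fun k => k.natAbs = a)).card : ℝ) *
          ((((Finset.Icc (-(N : ℤ)) N).filter (fun k => k.natAbs = a')).card : ℝ) * B) := by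
          rw [Finset.sum_const, Finset.sum_const, nsmul_eq_mul, nsmul_eq_mul]
      _ ≤ 2 * (2 * B) := by
          have g1 : (((Finset.Icc (-(N : ℤ)) N).filter (fun k => k.natAbs = a)).card : ℝ) ≤ 2 := by
            exact_mod_cast card_fib N a
          have g2 : (((Finset.Icc (-(N : ℤ)) N).filter (fun k => k.natAbs = a')).card : ℝ) ≤ 2 := by
            exact_mod_cast card_fib N a'
          exact mul_le_mul g1 (mul_le_mul_of_nonneg_right g2 hB0) (by positivity) (by norm_num)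
      _ = 4 * B := by ring
  · intro x y
    have key : ∑ a ∈ range (N + 1), ∑ a' ∈ range (N + 1),
        (∑ k ∈ (Finset.Icc (-(N : ℤ)) N).filter (fun k => k.natAbs = a),
        ∑ l ∈ (Finset.Icc (-(N : ℤ)) N).filter (fun k => k.natAbs = a'), b k * b l * D k l) *
          ((Real.cos (a * x) : ℝ) : ℂ) * ((Real.cos (a' * y) : ℝ) : ℂ) =
        ∑ l ∈ Finset.Icc (-(N : ℤ)) N, b l *
        (∑ k ∈ Finset.Icc (-(N : ℤ)) N, b k * D k l * ((Real.cos (k * x) : ℝ) : ℂ)) *
        ((Real.cos (l * y) : ℝ) : ℂ) := by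
      have r1 : ∑ l ∈ Finset.Icc (-(N : ℤ)) N, b l *
        (∑ k ∈ Finset.Icc (-(N : ℤ)) N, b k * D k l * ((Real.cos (k * x) : ℝ) : ℂ)) *
        ((Real.cos (l * y) : ℝ) : ℂ) = ∑ k ∈ Finset.Icc (-(N : ℤ)) N, ∑ l ∈ Finset.Icc (-(N : ℤ)) N,
          b k * b l * D k l * ((Real.cos (k * x) : ℝ) : ℂ) * ((Real.cos (l * y) : ℝ) : ℂ) := by
        rw [Finset.sum_comm]
        refine Finset.sum_congr rfl fun l _ => ?_
        rw [Finset.mul_sum, Finset.sum_mul]
        exact Finset.sum_congr rfl fun k _ => by ring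
      rw [r1, fold_sum N]
      refine Finset.sum_congr rfl fun a _ => ?_
      have r2 : ∀ k ∈ (Finset.Icc (-(N : ℤ)) N).filter (fun k => k.natAbs = a),
          ∑ l ∈ Finset.Icc (-(N : ℤ)) N, b k * b l * D k l * ((Real.cos (k * x) : ℝ) : ℂ) *
            ((Real.cos (l * y) : ℝ) : ℂ) = ∑ a' ∈ range (N + 1),
          ∑ l ∈ (Finset.Icc (-(N : ℤ)) N).filter (fun k => k.natAbs = a'),
            b k * b l * D k l * ((Real.cos (a * x) : ℝ) : ℂ) * ((Real.cos (a' * y) : ℝ) : ℂ) := by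
        intro k hk
        rw [fold_sum N]
        refine Finset.sum_congr rfl fun a' _ => Finset.sum_congr rfl fun l hl => ?_
        rw [cos_natAbs k a (Finset.mem_filter.1 hk).2, cos_natAbs l a' (Finset.mem_filter.1 hl).2]
      rw [Finset.sum_congr rfl r2, Finset.sum_comm]
      refine Finset.sum_congr rfl fun a' _ => ?_
      rw [Finset.sum_mul, Finset.sum_mul]
      refine Finset.sum_congr rfl fun k _ => ?_
      rw [Finset.sum_mul, Finset.sum_mul]
    rw [key]
    have h3 := norm_add_le_of_le (s1 x y) (s2 x y)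
    rw [sub_add_sub_cancel] at h3
    refine h3.trans (le_of_eq ?_)
    ring

end Pool.Agent.P8H52.TUJ
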